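import Pool.Agent.V11226.ED.Main

/-!
# MP_1c0426_nt: the digits of the dilates of the elements of large `B_h`-sets

Fix `h ≥ 2`, a base `b`, a length `l` and a tolerance `η > 0`. Let `α` be a real number with
`|n α - p| ≥ c_ε n ^ (-1-ε)` for all `ε > 0` (every real algebraic irrational number, by Roth's
theorem, which is proved in the library of helper89), let `β` be any real number and
`z = (z_0, z_1, …)` any sequence of words of `l` digits. Call `a` typical up to `N` if the word `z_i`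
stands right after the `i`-th digit of `a α + β` (after the point) for a proportion of the
`i < log_b N` which differs from `b ^ (-l)` by at most `η`.

1. Every `B_h`-set has at most `(C N ^ (1 - δ)) ^ (1/h)` elements up to `N` which are not typical.
2. So for all large `N` every `B_h`-set `A` in `{1, …, N}` with at least `N ^ (1/h)` elements has at
   most `N ^ (-δ) |A|` elements which are not typical, uniformly for all `β` and `z`. In particular
   the upper bound `|A| ≤ N ^ (1/h)` (more than Q1 asks for) holds for all `B_h`-sets in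
   `{1, …, N}` of which more than a proportion `N ^ (-δ)` of the elements is not typical for some
   `β` and `z`, when `N` is large.
-/

set_option autoImplicit false

open Filter

namespace Pool.Agent.Results.MP_1c0426_nt.DigitsOfDilates

/-- `A` is a `B_h`-set: distinct multisets of `h` elements of `A` have distinct sums. -/
def BhSet (h : ℕ) (A : Set ℕ) : Prop :=
  ∀ M M' : Multiset ℕ, M.card = h → M'.card = h → (∀ x ∈ M, x ∈ A) → (∀ x ∈ M', x ∈ A) →
    M.sum = M'.sum → M = M'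

/-- `|n α - p| ≥ c n ^ (-1-ε)` for every `ε > 0`, with some `c > 0` depending on `ε`. -/
def TypeOne (α : ℝ) : Prop :=
  ∀ ε : ℝ, 0 < ε → ∃ c : ℝ, 0 < c ∧ ∀ n : ℕ, 1 ≤ n → ∀ p : ℤ, c ≤ (n : ℝ) ^ (1 + ε) * |n * α - p|

/-- The number of the places `i < L` such that the word `z i` of `l` digits in base `b` (a number
below `b ^ l`) stands right after the `i`-th digit after the point of `x`. -/
noncomputable def agreements (b l : ℕ) (z : ℕ → ℕ) (L : ℕ) (x : ℝ) : ℕ :=
  {i : ℕ | i < L ∧ ⌊(b : ℝ) ^ (i + l) * x⌋ % ((b ^ l : ℕ) : ℤ) = (z i : ℤ)}.ncard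

/-- The proportion of the places `i < L` with agreement differs from `b ^ (-l)` by at most `η`. -/
def Typical (b l : ℕ) (z : ℕ → ℕ) (η : ℝ) (L : ℕ) (x : ℝ) : Prop :=
  |(agreements b l z L x : ℝ) / L - 1 / (b : ℝ) ^ l| ≤ η

/-- (1) In a `B_h`-set at most `(C N ^ (1 - δ)) ^ (1/h)` elements up to `N` are such that
`a α + β` is not typical for `z`. (2) In a `B_h`-set in `{1, …, N}` with at least `N ^ (1/h)` elements
at most a proportion `N ^ (-δ)` of the elements is not typical, uniformly in `β` and `z`, when `N` is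
large. The number `α` is arbitrary of type one, for example algebraic and irrational. -/
theorem result (b l h : ℕ) (hb : 2 ≤ b) (hh : 2 ≤ h) (η : ℝ) (hη : 0 < η) :
    (∀ α : ℝ, IsAlgebraic ℚ α → Irrational α → TypeOne α) ∧
    ∃ δ : ℝ, 0 < δ ∧ ∀ α : ℝ, TypeOne α →
      (∃ C : ℝ, 0 < C ∧ ∀ A : Set ℕ, BhSet h A → ∀ (β : ℝ) (z : ℕ → ℕ) (N : ℕ),
        (∀ i, z i < b ^ l) → 1 ≤ N →
        ({a : ℕ | a ∈ A ∧ a ≤ N ∧ ¬ Typical b l z η (Nat.log b N) (a * α + β)}.ncard : ℝ) ^ h ≤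
          C * (N : ℝ) ^ (1 - δ)) ∧
      ∀ᶠ N : ℕ in atTop, ∀ A : Finset ℕ, A ⊆ Finset.Icc 1 N → BhSet h (A : Set ℕ) →
        (N : ℝ) ^ (1 / h : ℝ) ≤ A.card → ∀ (β : ℝ) (z : ℕ → ℕ), (∀ i, z i < b ^ l) →
          ({a : ℕ | a ∈ A ∧ ¬ Typical b l z η (Nat.log b N) (a * α + β)}.ncard : ℝ) ≤
            (N : ℝ) ^ (-δ) * A.card := by
  classical
  refine ⟨fun α h1 h2 => Pool.Agent.V11226.ED.typeOne_of_alg α h1 h2, ?_⟩
  obtain ⟨δ, hδ, H⟩ := Pool.Agent.V11226.ED.mainD b l h hb (by omega) η hη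
  have hh0 : (0 : ℝ) < h := by
    have : 0 < h := by omega
    exact_mod_cast this
  have hh1 : (1 : ℝ) ≤ h := by
    have : 1 ≤ h := by omega
    exact_mod_cast this
  have hagr : ∀ (z : ℕ → ℕ) (L : ℕ) (x : ℝ), agreements b l z L x =
      Pool.Agent.V11226.ED.agrR b l z L x := by
    intro z L x
    unfold agreements Pool.Agent.V11226.ED.agrR Pool.Agent.V11226.ED.BlkR
    rw [← Set.ncard_coe_finset]
    congr 1
    ext i
    simp only [Set.mem_ofPred_eq, Finset.coe_filter, Finset.mem_range]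
  have hset : ∀ (A : Set ℕ) (α β : ℝ) (z : ℕ → ℕ) (N : ℕ),
      {a : ℕ | a ∈ A ∧ a ≤ N ∧ ¬ Typical b l z η (Nat.log b N) (a * α + β)} =
      ({x | x ∈ A ∧ ¬ Pool.Agent.V11226.ED.TypD b l z α β η N x ∧ x ≤ N} : Set ℕ) := by
    intro A α β z N
    ext x
    have h1 : Typical b l z η (Nat.log b N) ((x : ℝ) * α + β) ↔
        Pool.Agent.V11226.ED.TypD b l z α β η N x := by
      unfold Typical Pool.Agent.V11226.ED.TypD
      rw [hagr]
    constructor
    · rintro ⟨h2, h4, h3⟩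
      exact ⟨h2, fun h => h3 (h1.2 h), h4⟩
    · rintro ⟨h2, h3, h4⟩
      exact ⟨h2, h4, fun h => h3 (h1.1 h)⟩
  have hsid : ∀ A : Set ℕ, BhSet h A → ∀ n, (Pool.Agent.V11226.ET.msets A h n).ncard ≤ 1 := by
    intro A hA n
    rw [Set.ncard_le_one (Pool.Agent.V11226.ET.msets_finite A h n)]
    rintro M ⟨h1, h2, h3⟩ M' ⟨h1', h2', h3'⟩
    exact hA M M' h1 h1' h2 h2' (h3.trans h3'.symm)
  have hδh : δ / (2 * h) ≤ δ := by
    rw [div_le_iff₀ (by positivity)]
    nlinarith
  refine ⟨δ / (2 * h), by positivity, ?_⟩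
  intro α hα
  obtain ⟨C, hC, HC⟩ := H α hα
  have hmain : ∀ A : Set ℕ, BhSet h A → ∀ (β : ℝ) (z : ℕ → ℕ) (N : ℕ),
      (∀ i, z i < b ^ l) → 1 ≤ N →
      ({a : ℕ | a ∈ A ∧ a ≤ N ∧ ¬ Typical b l z η (Nat.log b N) (a * α + β)}.ncard : ℝ) ^ h ≤
        C * (N : ℝ) ^ (1 - δ) := by
    intro A hA β z N hz hN
    rw [hset]
    have h1 := HC z β A 1 N hz hN (fun n _ => hsid A hA n)
    simpa using h1
  constructor
  · refine ⟨C, hC, ?_⟩
    intro A hA β z N hz hN
    refine (hmain A hA β z N hz hN).trans ?_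
    refine mul_le_mul_of_nonneg_left ?_ hC.le
    exact Real.rpow_le_rpow_of_exponent_le (by exact_mod_cast hN) (by linarith)
  · -- large `N`
    have hev : ∀ᶠ N : ℕ in atTop, C * (N : ℝ) ^ (-(δ / 2)) ≤ 1 := by
      have t1 : Tendsto (fun N : ℕ => C * (N : ℝ) ^ (-(δ / 2))) atTop (nhds (C * 0)) :=
        ((tendsto_rpow_neg_atTop (by positivity)).comp tendsto_natCast_atTop_atTop).const_mul C
      rw [mul_zero] at t1
      exact (t1.eventually (gt_mem_nhds one_pos)).mono fun N hN => hN.le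
    filter_upwards [hev, eventually_ge_atTop 1] with N h2 hN
    intro A hAN hA hcard β z hz
    have hN1 : (1 : ℝ) ≤ N := by exact_mod_cast hN
    have hN0 : (0 : ℝ) < N := by linarith
    have h3 := hmain (A : Set ℕ) hA β z N hz hN
    have hsub : {a : ℕ | a ∈ A ∧ ¬ Typical b l z η (Nat.log b N) (a * α + β)} =
        {a : ℕ | a ∈ (A : Set ℕ) ∧ a ≤ N ∧ ¬ Typical b l z η (Nat.log b N) (a * α + β)} := by
      ext a
      constructor
      · rintro ⟨h4, h5⟩
        exact ⟨Finset.mem_coe.2 h4, (Finset.mem_Icc.1 (hAN h4)).2, h5⟩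
      · rintro ⟨h4, _, h5⟩
        exact ⟨Finset.mem_coe.1 h4, h5⟩
    rw [hsub]
    have h4 : ((N : ℝ) ^ (-(δ / (2 * h))) * (N : ℝ) ^ (1 / h : ℝ)) ^ h =
        (N : ℝ) ^ (-(δ / 2)) * N := by
      rw [mul_pow, one_div, Real.rpow_inv_natCast_pow hN0.le (by omega), ← Real.rpow_natCast,
        ← Real.rpow_mul hN0.le]
      congr 2
      field_simp
    have h5 : C * (N : ℝ) ^ (1 - δ) ≤ (N : ℝ) ^ (-(δ / 2)) * N := by
      calc C * (N : ℝ) ^ (1 - δ) = (C * (N : ℝ) ^ (-(δ / 2))) * ((N : ℝ) ^ (-(δ / 2)) * N) := by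
            have h6 : (N : ℝ) ^ (1 - δ) = (N : ℝ) ^ (-(δ / 2)) * ((N : ℝ) ^ (-(δ / 2)) * N) := by
              nth_rewrite 4 [← Real.rpow_one (N : ℝ)]
              rw [← Real.rpow_add hN0, ← Real.rpow_add hN0]
              congr 1
              ring
            rw [h6]; ring
        _ ≤ 1 * ((N : ℝ) ^ (-(δ / 2)) * N) := mul_le_mul_of_nonneg_right h2 (by positivity)
        _ = _ := one_mul _
    have h6 : ({a : ℕ | a ∈ (A : Set ℕ) ∧ a ≤ N ∧
        ¬ Typical b l z η (Nat.log b N) (a * α + β)}.ncard : ℝ) ≤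
        (N : ℝ) ^ (-(δ / (2 * h))) * (N : ℝ) ^ (1 / h : ℝ) := by
      refine le_of_pow_le_pow_left₀ (n := h) (by omega) (by positivity) ?_
      rw [h4]
      exact h3.trans h5
    exact h6.trans (mul_le_mul_of_nonneg_left hcard (by positivity))

end Pool.Agent.Results.MP_1c0426_nt.DigitsOfDilates
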